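import Mathlib

set_option autoImplicit false

namespace Pool.Agent.Results.MP_891d15_co.DisproofInfinite

/-- A sequence over `ZMod n` (a finite list up to order, that is, a multiset) is 2-zero when it has
at least two terms and its second elementary symmetric value vanishes. -/
def TwoZero {n : ℕ} (T : Multiset (ZMod n)) : Prop :=
  2 ≤ Multiset.card T ∧ T.esymm 2 = 0

/-- The constant `D_{e_2}^{(2)}(Z_n)`: the least `ℓ` such that every sequence of length `ℓ` over
`ZMod n` has a 2-zero subsequence. -/
noncomputable def D (n : ℕ) : ℕ :=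
  sInf {ℓ : ℕ | ∀ S : Multiset (ZMod n), Multiset.card S = ℓ → ∃ T ≤ S, TwoZero T}

/-! ### The second elementary symmetric value -/

lemma esymm_cons {R : Type*} [CommRing R] (a : R) (T : Multiset R) :
    (a ::ₘ T).esymm 2 = T.esymm 2 + a * T.sum := by
  unfold Multiset.esymm
  rw [Multiset.powersetCard_cons, Multiset.map_add, Multiset.sum_add, Multiset.powersetCard_one]
  simp only [Multiset.map_map, Function.comp_def, Multiset.prod_cons, Multiset.prod_singleton]
  rw [Multiset.sum_map_mul_left]
  simp

lemma two_mul_esymm {R : Type*} [CommRing R] (T : Multiset R) :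
    2 * T.esymm 2 = T.sum ^ 2 - (T.map (fun x => x ^ 2)).sum := by
  induction T using Multiset.induction_on with
  | empty =>
    rw [Multiset.esymm, Multiset.powersetCard_eq_empty 2 (by simp)]
    simp
  | cons a T ih =>
    rw [esymm_cons, Multiset.sum_cons, Multiset.map_cons, Multiset.sum_cons, mul_add, ih]
    ring

/-- The value of `2 e_2` on `i` copies of `1` and `j` copies of `y`. -/
lemma two_mul_esymm_rep {R : Type*} [CommRing R] (i j : ℕ) (y : R) :
    2 * (Multiset.replicate i (1 : R) + Multiset.replicate j y).esymm 2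
      = (i + j * y) ^ 2 - (i + j * y ^ 2) := by
  rw [two_mul_esymm]
  simp [Multiset.sum_replicate, nsmul_eq_mul]

/-- Every submultiset of `a` copies of `x` and `b` copies of `y` has this form. -/
lemma le_rep {α : Type*} [DecidableEq α] {x y : α} (hxy : x ≠ y) {a b : ℕ} {T : Multiset α}
    (hT : T ≤ Multiset.replicate a x + Multiset.replicate b y) :
    ∃ i j, i ≤ a ∧ j ≤ b ∧ T = Multiset.replicate i x + Multiset.replicate j y := by
  refine ⟨T.count x, T.count y, ?_, ?_, ?_⟩
  · have := Multiset.count_le_of_le x hT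
    simpa [Multiset.count_replicate, hxy, hxy.symm] using this
  · have := Multiset.count_le_of_le y hT
    simpa [Multiset.count_replicate, hxy, hxy.symm] using this
  · ext z
    by_cases hzx : z = x
    · subst hzx
      simp [Multiset.count_replicate, hxy.symm]
    · by_cases hzy : z = y
      · subst hzy
        simp [Multiset.count_replicate, hxy]
      · have := Multiset.count_le_of_le z hT
        simp [Multiset.count_replicate, Ne.symm hzx, Ne.symm hzy] at this
        simp [Multiset.count_replicate, Ne.symm hzx, Ne.symm hzy, this]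

/-! ### The long 2-zero free sequence -/

/-- If `2 y = z + 1` and none of `1 + (z - 1) (z + 1) j`, `2 ≤ j ≤ b`, is a square modulo the
prime `p`, then `p - z - 1` copies of `1` and `b` copies of `y` form a 2-zero free sequence. -/
lemma free (p : ℕ) [Fact p.Prime] (hp2 : p ≠ 2) (z b : ℕ) (hz : 2 ≤ z) (hzp : z + 1 ≤ p)
    (h : ∀ j, 2 ≤ j → j ≤ b → ¬ IsSquare ((1 + (z - 1) * (z + 1) * j : ℕ) : ZMod p))
    (y : ZMod p) (hy : 2 * y = (z : ZMod p) + 1)
    (T : Multiset (ZMod p))
    (hT : T ≤ Multiset.replicate (p - z - 1) 1 + Multiset.replicate b y) : ¬ TwoZero T := by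
  have hp : p.Prime := Fact.out
  have h2 : (2 : ZMod p) ≠ 0 := by
    intro h0
    have : (p : ℕ) ∣ 2 := by
      rw [← ZMod.natCast_eq_zero_iff]
      exact_mod_cast h0
    have := Nat.le_of_dvd (by norm_num) this
    have := hp.two_le
    omega
  have hy1 : (1 : ZMod p) ≠ y := by
    intro h1
    rw [← h1] at hy
    have h0 : ((z - 1 : ℕ) : ZMod p) = 0 := by
      rw [Nat.cast_sub (by omega)]
      push_cast
      linear_combination -hy
    rw [ZMod.natCast_eq_zero_iff] at h0
    have := Nat.le_of_dvd (by omega) h0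
    omega
  obtain ⟨i, j, hi, hj, rfl⟩ := le_rep hy1 hT
  rintro ⟨hcard, h0⟩
  simp only [Multiset.card_add, Multiset.card_replicate] at hcard
  have key : (2 * (i : ZMod p) + (z + 1) * j - 1) ^ 2 = 1 + (z - 1) * (z + 1) * j := by
    have h1 := two_mul_esymm_rep (R := ZMod p) i j y
    rw [h0, mul_zero] at h1
    linear_combination (-4) * h1 + (-4 * (i : ZMod p) * j - 2 * (j : ZMod p) ^ 2 * y
      - (j : ZMod p) ^ 2 * (z + 1) + (j : ZMod p) * (2 * y + (z + 1))) * hy
  rcases Nat.lt_or_ge j 2 with hj2 | hj2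
  · interval_cases j
    · -- only copies of `1`
      have h3 : (i : ZMod p) * ((i - 1 : ℕ) : ZMod p) = 0 := by
        rw [Nat.cast_sub (by omega)]
        have : (2 : ZMod p) * 2 * ((i : ZMod p) * ((i : ZMod p) - 1)) = 0 := by
          push_cast at key
          linear_combination key
        push_cast
        exact (mul_eq_zero.mp this).resolve_left (mul_ne_zero h2 h2)
      rcases mul_eq_zero.mp h3 with h4 | h4
      · rw [ZMod.natCast_eq_zero_iff] at h4
        have := Nat.le_of_dvd (by omega) h4
        omega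
      · rw [ZMod.natCast_eq_zero_iff] at h4
        have := Nat.le_of_dvd (by omega) h4
        omega
    · -- one copy of `y`
      have h3 : (i : ZMod p) * ((i + z : ℕ) : ZMod p) = 0 := by
        have : (2 : ZMod p) * 2 * ((i : ZMod p) * ((i : ZMod p) + z)) = 0 := by
          push_cast at key
          linear_combination key
        push_cast
        exact (mul_eq_zero.mp this).resolve_left (mul_ne_zero h2 h2)
      rcases mul_eq_zero.mp h3 with h4 | h4
      · rw [ZMod.natCast_eq_zero_iff] at h4
        have := Nat.le_of_dvd (by omega) h4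
        omega
      · rw [ZMod.natCast_eq_zero_iff] at h4
        have := Nat.le_of_dvd (by omega) h4
        omega
  · refine h j hj2 hj ⟨2 * (i : ZMod p) + (z + 1) * j - 1, ?_⟩
    rw [← pow_two, key]
    push_cast [Nat.cast_sub (show 1 ≤ z by omega)]
    ring

/-- Every sequence of length `p ^ 2` has a 2-zero subsequence, so that the set defining `D p` is
not empty. -/
lemma nonempty_set (p : ℕ) [Fact p.Prime] (hp2 : p ≠ 2) :
    (p ^ 2) ∈ {ℓ : ℕ | ∀ S : Multiset (ZMod p), Multiset.card S = ℓ → ∃ T ≤ S, TwoZero T} := by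
  intro S hS
  have hp : p.Prime := Fact.out
  have hpos := hp.pos
  -- some element occurs at least `p` times
  have hex : ∃ x : ZMod p, p ≤ S.count x := by
    by_contra hcon
    push Not at hcon
    have h1 : Multiset.card S = ∑ x : ZMod p, S.count x := by
      rw [← Multiset.toFinset_sum_count_eq S]
      exact Finset.sum_subset (Finset.subset_univ _) (by
        intro x _ hx
        rw [Multiset.mem_toFinset] at hx
        exact Multiset.count_eq_zero_of_notMem hx)
    have h2 : ∑ x : ZMod p, S.count x ≤ ∑ _x : ZMod p, (p - 1) :=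
      Finset.sum_le_sum (fun x _ => by have := hcon x; omega)
    rw [Finset.sum_const, Finset.card_univ, ZMod.card, smul_eq_mul] at h2
    have h3 : p * (p - 1) < p ^ 2 := by
      rw [pow_two]
      exact Nat.mul_lt_mul_of_pos_left (by omega) hpos
    omega
  obtain ⟨x, hx⟩ := hex
  refine ⟨Multiset.replicate p x, Multiset.le_count_iff_replicate_le.mp hx, ?_, ?_⟩
  · simpa using hp.two_le
  · have h2 : (2 : ZMod p) ≠ 0 := by
      intro h0
      have : (p : ℕ) ∣ 2 := by
        rw [← ZMod.natCast_eq_zero_iff]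
        exact_mod_cast h0
      have := Nat.le_of_dvd (by norm_num) this
      have := hp.two_le
      omega
    have h3 := two_mul_esymm (Multiset.replicate p x)
    simp only [Multiset.sum_replicate, Multiset.map_replicate, nsmul_eq_mul, CharP.cast_eq_zero,
      zero_mul] at h3
    have h4 : (2 : ZMod p) * (Multiset.replicate p x).esymm 2 = 0 := by
      rw [h3]; ring
    exact (mul_eq_zero.mp h4).resolve_left h2

/-- A 2-zero free sequence of length `L` forces `L + 1 ≤ D p`. -/
lemma lt_D (p : ℕ) [Fact p.Prime] (hp2 : p ≠ 2) (S : Multiset (ZMod p))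
    (hS : ∀ T ≤ S, ¬ TwoZero T) : Multiset.card S + 1 ≤ D p := by
  refine le_csInf ⟨p ^ 2, nonempty_set p hp2⟩ ?_
  intro ℓ hℓ
  by_contra hlt
  obtain ⟨S', hS', hcard⟩ : ∃ S' ≤ S, Multiset.card S' = ℓ := by
    obtain ⟨S', hS'⟩ := Multiset.card_pos_iff_exists_mem.mp (show
      0 < Multiset.card (Multiset.powersetCard ℓ S) by
        rw [Multiset.card_powersetCard]
        exact Nat.choose_pos (by omega))
    rw [Multiset.mem_powersetCard] at hS'
    exact ⟨S', hS'.1, hS'.2⟩
  obtain ⟨T, hT, hT0⟩ := hℓ S' hcard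
  exact hS T (hT.trans hS') hT0

/-! ### Infinitely many primes -/

/-- The modulus used in Dirichlet's theorem. -/
def M : ℕ := 4 * ∏ j ∈ Finset.Icc 2 23, (1 + 35 * j)

open NumberTheorySymbols in
lemma base (j : ℕ) (h2 : 2 ≤ j) (h23 : j ≤ 23) : J(((1 + 35 * j : ℕ) : ℤ) | 1167913) = -1 := by
  interval_cases j <;> norm_num

open NumberTheorySymbols in
lemma nonsq (p : ℕ) (hodd : Odd p) (hp : p ≡ 1167913 [MOD M]) (j : ℕ) (h2 : 2 ≤ j) (h23 : j ≤ 23) :
    ¬ IsSquare ((1 + 35 * j : ℕ) : ZMod p) := by
  have h1 : J(((1 + 35 * j : ℕ) : ℤ) | p) = -1 := by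
    rw [jacobiSym.mod_right _ hodd]
    have hdvd : 4 * (((1 + 35 * j : ℕ) : ℤ)).natAbs ∣ M := by
      rw [Int.natAbs_natCast]
      exact Nat.mul_dvd_mul_left 4 (Finset.dvd_prod_of_mem (fun j => 1 + 35 * j)
        (Finset.mem_Icc.mpr ⟨h2, h23⟩))
    have h3 : p % (4 * (((1 + 35 * j : ℕ) : ℤ)).natAbs)
        = 1167913 % (4 * (((1 + 35 * j : ℕ) : ℤ)).natAbs) := hp.of_dvd hdvd
    rw [h3, ← jacobiSym.mod_right _ (by decide)]
    exact base j h2 h23
  have h2 := ZMod.nonsquare_of_jacobiSym_eq_neg_one h1
  simpa using h2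

theorem result : {p : ℕ | p.Prime ∧ p % 4 = 1 ∧ p + 17 ≤ D p}.Infinite := by
  have hcop : Nat.Coprime 1167913 M := by
    unfold M
    rw [Nat.coprime_mul_iff_right]
    refine ⟨by norm_num, Nat.Coprime.prod_right ?_⟩
    intro j hj
    rw [Finset.mem_Icc] at hj
    obtain ⟨h2, h23⟩ := hj
    interval_cases j <;> norm_num
  have hM : M ≠ 0 := by
    unfold M
    refine Nat.mul_ne_zero (by norm_num) (Finset.prod_ne_zero_iff.mpr ?_)
    intro j _
    omega
  rw [Set.infinite_iff_exists_gt]
  intro m
  obtain ⟨p, hpm, hp, hmod⟩ := Nat.forall_exists_prime_gt_and_modEq (max m 1000) hM hcop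
  have hp4 : p % 4 = 1 := by
    have : p ≡ 1167913 [MOD 4] := hmod.of_dvd ⟨∏ j ∈ Finset.Icc 2 23, (1 + 35 * j), rfl⟩
    have h := this
    unfold Nat.ModEq at h
    omega
  have hbig : 1000 < p := lt_of_le_of_lt (le_max_right _ _) hpm
  refine ⟨p, ⟨hp, hp4, ?_⟩, lt_of_le_of_lt (le_max_left _ _) hpm⟩
  have : Fact p.Prime := ⟨hp⟩
  have hodd : Odd p := by
    rw [Nat.odd_iff]; omega
  have h2 : (2 : ZMod p) ≠ 0 := by
    intro h0
    have : (p : ℕ) ∣ 2 := by
      rw [← ZMod.natCast_eq_zero_iff]
      exact_mod_cast h0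
    have := Nat.le_of_dvd (by norm_num) this
    omega
  have hfree := free p (by omega) 6 23 (by norm_num) (by omega) (by
    intro j hj2 hj23
    have := nonsq p hodd hmod j hj2 hj23
    simpa using this) (7 / 2) (by
      push_cast
      field_simp
      norm_num)
  have hD := lt_D p (by omega) _ hfree
  simp only [Multiset.card_add, Multiset.card_replicate] at hD
  omega

end Pool.Agent.Results.MP_891d15_co.DisproofInfinite
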